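import Mathlib

/-!
Definitions for the growth theorem for leaves of holomorphic foliations with linearizable
singularities.
-/

set_option autoImplicit false

open scoped Manifold
open Metric

namespace Pool.Agent.Helper684.GX.Nev

variable {E M : Type*} [NormedAddCommGroup E] [NormedSpace ℂ E] [TopologicalSpace M]
  [ChartedSpace E M]

/-- Multiplication by `i` on the tangent space `T_x M` of a complex manifold. -/
noncomputable def J (x : M) (v : TangentSpace 𝓘(ℂ, E) x) : TangentSpace 𝓘(ℂ, E) x := Complex.I • v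

/-- A real valued function of two tangent vectors at `x` is a positive `(1,1)`-form at `x`: it is
real bilinear, alternating, invariant under `J`, and positive on `(v, J v)` for `v ≠ 0`. -/
structure IsPositiveAt (x : M)
    (β : TangentSpace 𝓘(ℂ, E) x → TangentSpace 𝓘(ℂ, E) x → ℝ) : Prop where
  add_left : ∀ u v w, β (u + v) w = β u w + β v w
  smul_left : ∀ (a : ℝ) v w, β ((a : ℂ) • v) w = a * β v w
  antisymm : ∀ v w, β w v = - β v w
  inv : ∀ v w, β (J x v) (J x w) = β v w
  pos : ∀ v, v ≠ 0 → 0 < β v (J x v)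

/-- A positive continuous `(1,1)`-form (the form of a Hermitian metric) on the complex manifold
`M` modelled on the complex vector space `E`. Every Kaehler form is of this kind. -/
structure PosForm (E M : Type*) [NormedAddCommGroup E] [NormedSpace ℂ E] [TopologicalSpace M]
    [ChartedSpace E M] [IsManifold 𝓘(ℂ, E) 1 M] where
  form : ∀ x : M, TangentSpace 𝓘(ℂ, E) x → TangentSpace 𝓘(ℂ, E) x → ℝ
  isPositiveAt : ∀ x, IsPositiveAt x (form x)
  cont : Continuous fun p : TangentBundle 𝓘(ℂ, E) M => form p.1 p.2 (J p.1 p.2)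

/-- The derivative of the map `e : M → E` at `x`, applied to the tangent vector `v`. -/
noncomputable def chartDeriv (e : M → E) (x : M) (v : TangentSpace 𝓘(ℂ, E) x) : E :=
  mfderiv 𝓘(ℂ, E) 𝓘(ℂ, E) e x v

/-- The derivative of the map `ψ : ℂ → M` at `ξ`, applied to the complex number `a`. -/
noncomputable def discDeriv (ψ : ℂ → M) (ξ a : ℂ) : TangentSpace 𝓘(ℂ, E) (ψ ξ) :=
  mfderiv 𝓘(ℂ, ℂ) 𝓘(ℂ, E) ψ ξ a

/-- On the domain of the chart `e`, the tangent lines `dir` with singular set `sing` are generated
by the vector field whose expression in the coordinates `e` is `Z`. -/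
def GeneratedOn (sing : Set M) (dir : ∀ x : M, Set (TangentSpace 𝓘(ℂ, E) x))
    (e : OpenPartialHomeomorph M E) (Z : E → E) : Prop :=
  ∀ x ∈ e.source, (x ∈ sing ↔ Z (e x) = 0) ∧
    (x ∉ sing → ∀ v : TangentSpace 𝓘(ℂ, E) x,
      v ∈ dir x ↔ ∃ c : ℂ, chartDeriv e x v = c • Z (e x))

/-- `e` is a holomorphic chart of `M`, whose domain contains `x`. -/
def IsHolChartAt (e : OpenPartialHomeomorph M E) (x : M) : Prop :=
  e ∈ IsManifold.maximalAtlas 𝓘(ℂ, E) 1 M ∧ x ∈ e.source

/-- A holomorphic foliation by curves of `M`, with singular set `sing`: every point outside `sing`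
has a holomorphic chart (flow box) in which the tangent lines of the foliation are parallel to a
fixed vector `v ≠ 0`. -/
structure Foliation (E M : Type*) [NormedAddCommGroup E] [NormedSpace ℂ E] [TopologicalSpace M]
    [ChartedSpace E M] where
  sing : Set M
  isClosed_sing : IsClosed sing
  dir : ∀ x : M, Set (TangentSpace 𝓘(ℂ, E) x)
  flowBox : ∀ x, x ∉ sing → ∃ e : OpenPartialHomeomorph M E, IsHolChartAt e x ∧
    ∃ v : E, v ≠ 0 ∧ GeneratedOn sing dir e (fun _ => v)

/-- The point `p` is a linearizable singularity: in a holomorphic chart around `p` the foliation is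
generated by a linear vector field `z ↦ A z` whose matrix has no nilpotent part,
i.e. `A (A z) = 0` implies `A z = 0`.
(For instance `A = diag (λ₁, …, λₖ)`, in particular with all `λⱼ ≠ 0`.) -/
def Foliation.LinearizableAt (F : Foliation E M) (p : M) : Prop :=
  ∃ e : OpenPartialHomeomorph M E, IsHolChartAt e p ∧
    ∃ A : E →ₗ[ℂ] E, (∀ z, A (A z) = 0 → A z = 0) ∧ GeneratedOn F.sing F.dir e A

/-- A holomorphic map from the unit disc to `M`, outside the singular set, tangent to `F`. -/
def Foliation.IsTangentDisc (F : Foliation E M) (ψ : ℂ → M) : Prop :=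
  MDifferentiableOn 𝓘(ℂ, ℂ) 𝓘(ℂ, E) ψ (ball 0 1) ∧
    ∀ ξ ∈ ball (0 : ℂ) 1, ψ ξ ∉ F.sing ∧ discDeriv ψ ξ 1 ∈ F.dir (ψ ξ)

/-- A set is open for the leaf topology when its preimage under every holomorphic disc tangent to
the foliation is open. -/
def Foliation.LeafOpen (F : Foliation E M) (U : Set M) : Prop :=
  ∀ ψ : ℂ → M, F.IsTangentDisc ψ → IsOpen (ball (0 : ℂ) 1 ∩ ψ ⁻¹' U)

theorem Foliation.leafOpen_univ (F : Foliation E M) : F.LeafOpen Set.univ := by
  intro ψ _
  rw [Set.preimage_univ, Set.inter_univ]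
  exact isOpen_ball

theorem Foliation.leafOpen_inter (F : Foliation E M) (U V : Set M) (hU : F.LeafOpen U)
    (hV : F.LeafOpen V) : F.LeafOpen (U ∩ V) := by
  intro ψ hψ
  rw [Set.preimage_inter, Set.inter_inter_distrib_left]
  exact (hU ψ hψ).inter (hV ψ hψ)

theorem Foliation.leafOpen_sUnion (F : Foliation E M) (S : Set (Set M))
    (hS : ∀ U ∈ S, F.LeafOpen U) : F.LeafOpen (⋃₀ S) := by
  intro ψ hψ
  rw [Set.preimage_sUnion, Set.inter_iUnion₂]
  exact isOpen_biUnion fun U hU => hS U hU ψ hψ

/-- The leaf topology on `M`. -/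
@[instance_reducible]
def Foliation.leafTopology (F : Foliation E M) : TopologicalSpace M where
  IsOpen U := F.LeafOpen U
  isOpen_univ := F.leafOpen_univ
  isOpen_inter := F.leafOpen_inter
  isOpen_sUnion := F.leafOpen_sUnion

/-- `M` with the leaf topology. -/
def Foliation.LeafSpace (_ : Foliation E M) : Type _ := M

/-- The leaf topology. -/
@[reducible]
def leafInst (F : Foliation E M) : TopologicalSpace F.LeafSpace := F.leafTopology

attribute [local instance] leafInst

/-- The identity map from `M` to `M` with the leaf topology. -/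
def Foliation.toLeafSpace (F : Foliation E M) (x : M) : F.LeafSpace := x

/-- The leaf through `a`: the path component of `a` for the leaf topology. -/
def Foliation.leaf (F : Foliation E M) (a : F.LeafSpace) : Set F.LeafSpace := pathComponent a

/-- `φ` is a universal covering, by the unit disc, of the leaf through `φ 0`: it is holomorphic,
immersive and tangent to the foliation, and it is a covering map over this leaf (with the leaf
topology). -/
structure Foliation.IsUniversalCovering (F : Foliation E M) (φ : ℂ → M) : Prop where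
  tangent : F.IsTangentDisc φ
  immersion : ∀ ξ ∈ ball (0 : ℂ) 1, discDeriv (E := E) φ ξ 1 ≠ 0
  covering : IsCoveringMapOn (fun ξ : ball (0 : ℂ) 1 => F.toLeafSpace (φ ξ))
    (F.leaf (F.toLeafSpace (φ 0)))

/-- The density of the pulled back form `φ^* ω` with respect to `dx ∧ dy`. -/
noncomputable def pullback [IsManifold 𝓘(ℂ, E) 1 M] (ω : PosForm E M) (φ : ℂ → M) (ξ : ℂ) : ℝ :=
  ω.form (φ ξ) (discDeriv φ ξ 1) (discDeriv φ ξ Complex.I)

/-- The Nevanlinna characteristic `T(r) = ∫₀^r (dt / t) ∫_{𝔻(t)} φ^* ω`. -/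
noncomputable def charT [IsManifold 𝓘(ℂ, E) 1 M] (ω : PosForm E M) (φ : ℂ → M) (r : ℝ) : ℝ :=
  ∫ t in (0 : ℝ)..r, (∫ ξ in ball (0 : ℂ) t, pullback ω φ ξ) / t

end Pool.Agent.Helper684.GX.Nev
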