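import Pool.Agent.Helper684.GX.NevDefs

attribute [local instance] Pool.Agent.Helper684.GX.Nev.leafInst

/-!
Lifting of tangent discs through the universal covering of a leaf, and the Schwarz lemma.
-/

set_option autoImplicit false

open Set Metric Filter Topology
open scoped Manifold ComplexConjugate

namespace Pool.Agent.Helper684.GX.Nev

theorem schwarz_pick {f : ℂ → ℂ} (hf : DifferentiableOn ℂ f (ball 0 1))
    (hmap : MapsTo f (ball 0 1) (ball 0 1)) : ‖deriv f 0‖ ≤ 1 - ‖f 0‖ ^ 2 := by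
  set a := f 0 with ha
  have ha1 : ‖a‖ < 1 := by
    have := hmap (mem_ball_self one_pos : (0 : ℂ) ∈ ball (0 : ℂ) 1)
    rwa [mem_ball_zero_iff] at this
  have key : ∀ w : ℂ, ‖w‖ < 1 → ‖w - a‖ < ‖1 - conj a * w‖ := by
    intro w hw
    have h1 : ‖1 - conj a * w‖ ^ 2 - ‖w - a‖ ^ 2 = (1 - ‖a‖ ^ 2) * (1 - ‖w‖ ^ 2) := by
      simp only [← Complex.normSq_eq_norm_sq, Complex.normSq_apply, Complex.sub_re, Complex.sub_im,
        Complex.mul_re, Complex.mul_im, Complex.conj_re, Complex.conj_im, Complex.one_re,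
        Complex.one_im]
      ring
    have h2 : 0 < (1 - ‖a‖ ^ 2) * (1 - ‖w‖ ^ 2) := by
      have h3 : ‖a‖ ^ 2 < 1 := by nlinarith [norm_nonneg a]
      have h4 : ‖w‖ ^ 2 < 1 := by nlinarith [norm_nonneg w]
      exact mul_pos (by linarith) (by linarith)
    exact lt_of_pow_lt_pow_left₀ 2 (norm_nonneg _) (by linarith)
  have hne : ∀ w : ℂ, ‖w‖ < 1 → 1 - conj a * w ≠ 0 := by
    intro w hw h0
    have := key w hw
    rw [h0, norm_zero] at this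
    exact absurd this (not_lt.2 (norm_nonneg _))
  set g : ℂ → ℂ := fun z => (f z - a) / (1 - conj a * f z) with hg
  have hfb : ∀ z ∈ ball (0 : ℂ) 1, ‖f z‖ < 1 := fun z hz => by
    have := hmap hz
    rwa [mem_ball_zero_iff] at this
  have hgd : DifferentiableOn ℂ g (ball 0 1) := by
    refine DifferentiableOn.div (hf.sub_const a) ((hf.const_mul _).const_sub 1) fun z hz => ?_
    exact hne _ (hfb z hz)
  have hg0 : g 0 = 0 := by
    show (f 0 - a) / (1 - conj a * f 0) = 0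
    rw [← ha, sub_self, zero_div]
  have hgm : MapsTo g (ball 0 1) (ball (g 0) 1) := by
    intro z hz
    rw [hg0, mem_ball_zero_iff, norm_div, div_lt_one (norm_pos_iff.2 (hne _ (hfb z hz)))]
    exact key _ (hfb z hz)
  have h1 := Complex.norm_deriv_le_one_of_mapsTo_ball hgd
    (hgm.mono_right ball_subset_closedBall) one_pos
  have hfd : HasDerivAt f (deriv f 0) 0 :=
    (hf.differentiableAt (isOpen_ball.mem_nhds (mem_ball_self one_pos))).hasDerivAt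
  have h2 : HasDerivAt g (deriv f 0 / (1 - conj a * a)) 0 := by
    have h3 := (hfd.sub_const a).div ((hfd.const_mul (conj a)).const_sub 1)
      (by rw [← ha]; exact hne a ha1)
    refine h3.congr_deriv ?_
    rw [← ha]
    have h4 := hne a ha1
    simp only [sub_self, zero_mul, sub_zero]
    field_simp
  have h5 : (1 : ℂ) - conj a * a = ((1 - ‖a‖ ^ 2 : ℝ) : ℂ) := by
    rw [mul_comm, Complex.mul_conj, Complex.normSq_eq_norm_sq]
    push_cast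
    rfl
  have h6 : 0 < 1 - ‖a‖ ^ 2 := by nlinarith [norm_nonneg a]
  rw [h2.deriv, h5, norm_div, Complex.norm_real, Real.norm_eq_abs, abs_of_pos h6,
    div_le_one h6] at h1
  exact h1

variable {E M : Type*} [NormedAddCommGroup E] [NormedSpace ℂ E] [TopologicalSpace M]
  [ChartedSpace E M]

theorem chart_mdiff {e : OpenPartialHomeomorph M E} {x : M} (he : IsHolChartAt e x) :
    MDifferentiableAt 𝓘(ℂ, E) 𝓘(ℂ, E) e x :=
  (contMDiffAt_of_mem_maximalAtlas he.1 he.2).mdifferentiableAt (by norm_num)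

theorem chart_symm_mdiff {e : OpenPartialHomeomorph M E}
    (he : e ∈ IsManifold.maximalAtlas 𝓘(ℂ, E) 1 M) {y : E} (hy : y ∈ e.target) :
    MDifferentiableAt 𝓘(ℂ, E) 𝓘(ℂ, E) e.symm y :=
  (contMDiffAt_symm_of_mem_maximalAtlas he hy).mdifferentiableAt (by norm_num)

theorem hasDerivAt_chart {e : OpenPartialHomeomorph M E} {ψ : ℂ → M} {ξ : ℂ}
    (hψ : MDifferentiableAt 𝓘(ℂ, ℂ) 𝓘(ℂ, E) ψ ξ) (he : IsHolChartAt e (ψ ξ)) :
    HasDerivAt (fun z => e (ψ z)) (chartDeriv e (ψ ξ) (discDeriv ψ ξ 1)) ξ := by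
  have h1 : MDifferentiableAt 𝓘(ℂ, ℂ) 𝓘(ℂ, E) (e ∘ ψ) ξ := (chart_mdiff he).comp ξ hψ
  have h2 : DifferentiableAt ℂ (e ∘ ψ) ξ := mdifferentiableAt_iff_differentiableAt.1 h1
  have h3 : mfderiv 𝓘(ℂ, ℂ) 𝓘(ℂ, E) (e ∘ ψ) ξ =
      (mfderiv 𝓘(ℂ, E) 𝓘(ℂ, E) e (ψ ξ)).comp (mfderiv 𝓘(ℂ, ℂ) 𝓘(ℂ, E) ψ ξ) :=
    mfderiv_comp ξ (chart_mdiff he) hψ
  rw [mfderiv_eq_fderiv] at h3
  have h4 := h2.hasFDerivAt.hasDerivAt
  have h5 : fderiv ℂ (e ∘ ψ) ξ 1 = chartDeriv e (ψ ξ) (discDeriv ψ ξ 1) := by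
    rw [h3]
    rfl
  rw [h5] at h4
  exact h4

theorem Foliation.IsTangentDisc.mdiffAt {F : Foliation E M} {ψ : ℂ → M} (h : F.IsTangentDisc ψ)
    {ξ : ℂ} (hξ : ξ ∈ ball (0 : ℂ) 1) : MDifferentiableAt 𝓘(ℂ, ℂ) 𝓘(ℂ, E) ψ ξ :=
  (h.1 ξ hξ).mdifferentiableAt (isOpen_ball.mem_nhds hξ)

theorem Foliation.IsTangentDisc.contAt {F : Foliation E M} {ψ : ℂ → M} (h : F.IsTangentDisc ψ)
    {ξ : ℂ} (hξ : ξ ∈ ball (0 : ℂ) 1) : ContinuousAt ψ ξ := (h.mdiffAt hξ).continuousAt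

/-- A curve in the coordinates which is tangent to the generating vector field gives a tangent
disc. -/
theorem isTangentDisc_of_curve {F : Foliation E M} {e : OpenPartialHomeomorph M E}
    (he : e ∈ IsManifold.maximalAtlas 𝓘(ℂ, E) 1 M) {Z : E → E}
    (hZ : GeneratedOn F.sing F.dir e Z) {z : ℂ → E} {c : ℂ}
    (hz : ∀ t ∈ ball (0 : ℂ) 1, HasDerivAt z (c • Z (z t)) t)
    (htar : ∀ t ∈ ball (0 : ℂ) 1, z t ∈ e.target) (hne : ∀ t ∈ ball (0 : ℂ) 1, Z (z t) ≠ 0) :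
    F.IsTangentDisc (fun t => e.symm (z t)) := by
  have hmd : ∀ t ∈ ball (0 : ℂ) 1, MDifferentiableAt 𝓘(ℂ, ℂ) 𝓘(ℂ, E)
      (fun t => e.symm (z t)) t := by
    intro t ht
    have h1 : MDifferentiableAt 𝓘(ℂ, ℂ) 𝓘(ℂ, E) z t :=
      mdifferentiableAt_iff_differentiableAt.2 (hz t ht).differentiableAt
    exact (chart_symm_mdiff he (htar t ht)).comp t h1
  refine ⟨fun t ht => (hmd t ht).mdifferentiableWithinAt, fun t ht => ?_⟩
  have hsrc : e.symm (z t) ∈ e.source := e.map_target (htar t ht)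
  have hinv : e (e.symm (z t)) = z t := e.right_inv (htar t ht)
  have h1 := hZ _ hsrc
  rw [hinv] at h1
  have hns : e.symm (z t) ∉ F.sing := fun h => hne t ht (h1.1.1 h)
  refine ⟨hns, (h1.2 hns _).2 ⟨c, ?_⟩⟩
  have h2 := hasDerivAt_chart (hmd t ht) ⟨he, hsrc⟩
  have h3 : (fun y => e (e.symm (z y))) =ᶠ[𝓝 t] z := by
    filter_upwards [isOpen_ball.mem_nhds ht] with y hy
    exact e.right_inv (htar y hy)
  exact (h2.congr_of_eventuallyEq h3.symm).unique (hz t ht)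

/-- the derivative of a tangent disc in the coordinates -/
theorem Foliation.IsTangentDisc.exists_deriv {F : Foliation E M} {ψ : ℂ → M}
    (h : F.IsTangentDisc ψ) {e : OpenPartialHomeomorph M E} {Z : E → E}
    (hZ : GeneratedOn F.sing F.dir e Z) {ξ : ℂ} (hξ : ξ ∈ ball (0 : ℂ) 1)
    (he : IsHolChartAt e (ψ ξ)) :
    ∃ c : ℂ, HasDerivAt (fun z => e (ψ z)) (c • Z (e (ψ ξ))) ξ := by
  obtain ⟨h1, h2⟩ := h.2 ξ hξ
  obtain ⟨c, hc⟩ := ((hZ _ he.2).2 h1 _).1 h2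
  refine ⟨c, ?_⟩
  rw [← hc]
  exact hasDerivAt_chart (h.mdiffAt hξ) he

/-- tangent discs are continuous for the leaf topology -/
theorem Foliation.IsTangentDisc.continuous_leaf {F : Foliation E M} {ψ : ℂ → M}
    (h : F.IsTangentDisc ψ) : Continuous fun z : ball (0 : ℂ) 1 => F.toLeafSpace (ψ z) := by
  rw [continuous_def]
  intro U hU
  have h1 : IsOpen (ball (0 : ℂ) 1 ∩ ψ ⁻¹' U) := hU ψ h
  have h2 := h1.preimage (continuous_subtype_val (p := fun z => z ∈ ball (0 : ℂ) 1))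
  convert h2 using 1
  ext z
  exact ⟨fun hz => ⟨z.2, hz⟩, fun hz => hz.2⟩

instance : ContractibleSpace (ball (0 : ℂ) 1) :=
  (convex_ball (0 : ℂ) 1).contractibleSpace ⟨0, mem_ball_self one_pos⟩

instance : LocallyPathConnectedSpace (ball (0 : ℂ) 1) :=
  isOpen_ball.locallyPathConnectedSpace

/-- Lifting of a tangent disc to the universal covering of the leaf. -/
theorem exists_lift {F : Foliation E M} {φ : ℂ → M} (hφ : F.IsUniversalCovering φ) {ψ : ℂ → M}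
    (hψ : F.IsTangentDisc ψ) {ξ₀ : ℂ} (hξ₀ : ξ₀ ∈ ball (0 : ℂ) 1) (h0 : ψ 0 = φ ξ₀) :
    ∃ f : ℂ → ℂ, ContinuousOn f (ball 0 1) ∧ MapsTo f (ball 0 1) (ball 0 1) ∧ f 0 = ξ₀ ∧
      ∀ z ∈ ball (0 : ℂ) 1, φ (f z) = ψ z := by
  have hcφ := hφ.tangent.continuous_leaf
  have hcψ := hψ.continuous_leaf
  have hz0 : (0 : ℂ) ∈ ball (0 : ℂ) 1 := mem_ball_self one_pos
  have hleaf : ∀ z : ball (0 : ℂ) 1,
      F.toLeafSpace (ψ z) ∈ F.leaf (F.toLeafSpace (φ 0)) := by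
    intro z
    have h1 : Joined (F.toLeafSpace (φ 0)) (F.toLeafSpace (φ ξ₀)) :=
      (PathConnectedSpace.joined (⟨0, hz0⟩ : ball (0 : ℂ) 1) ⟨ξ₀, hξ₀⟩).map hcφ
    have h2 : Joined (F.toLeafSpace (ψ 0)) (F.toLeafSpace (ψ z)) :=
      (PathConnectedSpace.joined (⟨0, hz0⟩ : ball (0 : ℂ) 1) z).map hcψ
    rw [h0] at h2
    exact h1.trans h2
  obtain ⟨Φ, ⟨hΦ0, hΦ⟩, -⟩ := hφ.covering.existsUnique_continuousMap_lifts
    (⟨_, hcψ⟩ : C(ball (0 : ℂ) 1, F.LeafSpace)) (a₀ := ⟨0, hz0⟩) (e₀ := ⟨ξ₀, hξ₀⟩)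
    (by show F.toLeafSpace (φ ξ₀) = F.toLeafSpace (ψ 0); rw [h0]) hleaf
  classical
  refine ⟨fun z => if hz : z ∈ ball (0 : ℂ) 1 then (Φ ⟨z, hz⟩ : ℂ) else 0, ?_, ?_, ?_, ?_⟩
  · rw [continuousOn_iff_continuous_domRestrict]
    have : (ball (0 : ℂ) 1).domRestrict
        (fun z => if hz : z ∈ ball (0 : ℂ) 1 then (Φ ⟨z, hz⟩ : ℂ) else 0) =
        fun z => (Φ z : ℂ) := by
      funext z
      show (if hz : (z : ℂ) ∈ ball (0 : ℂ) 1 then (Φ ⟨z, hz⟩ : ℂ) else 0) = (Φ z : ℂ)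
      rw [dif_pos z.2]
    rw [this]
    exact continuous_subtype_val.comp Φ.continuous
  · intro z hz
    simp only [hz, dif_pos]
    exact (Φ ⟨z, hz⟩).2
  · simp only [hz0, dif_pos]
    rw [hΦ0]
  · intro z hz
    simp only [hz, dif_pos]
    exact congrFun hΦ ⟨z, hz⟩

theorem chartDeriv_ne_zero {e : OpenPartialHomeomorph M E} {x : M} (he : IsHolChartAt e x)
    {v : TangentSpace 𝓘(ℂ, E) x} (hv : v ≠ 0) : chartDeriv e x v ≠ 0 := by
  intro h0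
  apply hv
  have h1 : MDifferentiableAt 𝓘(ℂ, E) 𝓘(ℂ, E) e.symm (e x) :=
    chart_symm_mdiff he.1 (e.map_source he.2)
  have h2 : mfderiv 𝓘(ℂ, E) 𝓘(ℂ, E) (e.symm ∘ e) x =
      (mfderiv 𝓘(ℂ, E) 𝓘(ℂ, E) e.symm (e x)).comp (mfderiv 𝓘(ℂ, E) 𝓘(ℂ, E) e x) :=
    mfderiv_comp x h1 (chart_mdiff he)
  have h3 : (e.symm ∘ e) =ᶠ[𝓝 x] id := by
    filter_upwards [e.open_source.mem_nhds he.2] with y hy
    exact e.left_inv hy
  have h4 : mfderiv 𝓘(ℂ, E) 𝓘(ℂ, E) (e.symm ∘ e) x = mfderiv 𝓘(ℂ, E) 𝓘(ℂ, E) (id : M → M) x :=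
    h3.mfderiv_eq
  rw [h2, mfderiv_id] at h4
  have h5 := congrArg (fun L : E →L[ℂ] E => L v) h4
  have h6 : mfderiv 𝓘(ℂ, E) 𝓘(ℂ, E) e x v = 0 := h0
  have h7 : (mfderiv 𝓘(ℂ, E) 𝓘(ℂ, E) e.symm (e x))
      (mfderiv 𝓘(ℂ, E) 𝓘(ℂ, E) e x v) = v := h5
  rw [h6, map_zero] at h7
  exact h7.symm

/-- The lift of a tangent disc is holomorphic. -/
theorem lift_differentiable [IsManifold 𝓘(ℂ, E) 1 M] {F : Foliation E M} {φ : ℂ → M}
    (hφ : F.IsUniversalCovering φ) {ψ : ℂ → M} (hψ : F.IsTangentDisc ψ) {f : ℂ → ℂ}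
    (hf : ContinuousOn f (ball 0 1)) (hmap : MapsTo f (ball 0 1) (ball 0 1))
    (hlift : ∀ z ∈ ball (0 : ℂ) 1, φ (f z) = ψ z) : DifferentiableOn ℂ f (ball 0 1) := by
  intro z₀ hz₀
  apply DifferentiableAt.differentiableWithinAt
  set ξ := f z₀ with hξ
  have hξb : ξ ∈ ball (0 : ℂ) 1 := hmap hz₀
  set e := chartAt E (φ ξ) with he
  have heC : e ∈ IsManifold.maximalAtlas 𝓘(ℂ, E) 1 M := IsManifold.chart_mem_maximalAtlas _
  have hsrc : φ ξ ∈ e.source := mem_chart_source E (φ ξ)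
  have hcψ : φ ξ = ψ z₀ := hlift z₀ hz₀
  -- a functional which does not vanish on the derivative of φ
  have hne : chartDeriv e (φ ξ) (discDeriv φ ξ 1) ≠ 0 :=
    chartDeriv_ne_zero ⟨heC, hsrc⟩ (hφ.immersion ξ hξb)
  obtain ⟨ℓ, -, hℓ⟩ := exists_dual_vector ℂ _ (norm_ne_zero_iff.2 hne)
  set h : ℂ → ℂ := fun z => ℓ (e (φ z)) with hh
  have hd : ∀ z ∈ ball (0 : ℂ) 1 ∩ φ ⁻¹' e.source,
      HasDerivAt h (ℓ (chartDeriv e (φ z) (discDeriv φ z 1))) z := by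
    rintro z ⟨hz, hz'⟩
    exact ℓ.hasFDerivAt.comp_hasDerivAt z (hasDerivAt_chart (hφ.tangent.mdiffAt hz) ⟨heC, hz'⟩)
  have hopen : (ball (0 : ℂ) 1 ∩ φ ⁻¹' e.source) ∈ 𝓝 ξ :=
    Filter.inter_mem (isOpen_ball.mem_nhds hξb)
      ((hφ.tangent.contAt hξb).preimage_mem_nhds (e.open_source.mem_nhds hsrc))
  have hana : AnalyticAt ℂ h ξ := by
    rw [Complex.analyticAt_iff_eventually_differentiableAt]
    filter_upwards [hopen] with z hz
    exact (hd z hz).differentiableAt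
  have hstrict : HasStrictDerivAt h (deriv h ξ) ξ := hana.hasStrictDerivAt
  have hderiv : deriv h ξ = ℓ (chartDeriv e (φ ξ) (discDeriv φ ξ 1)) :=
    (hd ξ ⟨hξb, hsrc⟩).deriv
  have hne' : deriv h ξ ≠ 0 := by
    rw [hderiv, hℓ]
    simpa using hne
  have hinv := (hstrict.hasStrictFDerivAt_equiv hne').eventually_left_inverse
  have hcont : ContinuousAt f z₀ := hf.continuousAt (isOpen_ball.mem_nhds hz₀)
  -- f = G ∘ (ℓ ∘ e ∘ ψ)
  have h1 : ∀ᶠ z in 𝓝 z₀, f z =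
      hstrict.localInverse h (deriv h ξ) ξ hne' (ℓ (e (ψ z))) := by
    filter_upwards [hcont.eventually hinv, isOpen_ball.mem_nhds hz₀] with z hz hzb
    rw [← hlift z hzb]
    exact hz.symm
  have h2 : DifferentiableAt ℂ (fun z => ℓ (e (ψ z))) z₀ := by
    have hsrc' : ψ z₀ ∈ e.source := hcψ ▸ hsrc
    exact (ℓ.hasFDerivAt.comp_hasDerivAt z₀
      (hasDerivAt_chart (hψ.mdiffAt hz₀) ⟨heC, hsrc'⟩)).differentiableAt
  have h3 : DifferentiableAt ℂ (hstrict.localInverse h (deriv h ξ) ξ hne') (ℓ (e (ψ z₀))) := by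
    have hv : h ξ = ℓ (e (ψ z₀)) := by
      show ℓ (e (φ ξ)) = _
      rw [hcψ]
    rw [← hv]
    exact (hstrict.to_localInverse hne').hasDerivAt.differentiableAt
  exact (h3.comp z₀ h2).congr_of_eventuallyEq h1

/-- the square of the length of a tangent vector -/
noncomputable def qf [IsManifold 𝓘(ℂ, E) 1 M] (ω : PosForm E M) (x : M) (v : E) : ℝ :=
  ω.form x v (J x v)

section metric

variable [IsManifold 𝓘(ℂ, E) 1 M] (ω : PosForm E M)

theorem form_add_right (x : M) (u v w : TangentSpace 𝓘(ℂ, E) x) :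
    ω.form x u (v + w) = ω.form x u v + ω.form x u w := by
  have h := ω.isPositiveAt x
  rw [h.antisymm (v + w) u, h.add_left, h.antisymm v u, h.antisymm w u]
  ring

theorem form_smul_right (x : M) (a : ℝ) (v w : TangentSpace 𝓘(ℂ, E) x) :
    ω.form x v ((a : ℂ) • w) = a * ω.form x v w := by
  have h := ω.isPositiveAt x
  rw [h.antisymm ((a : ℂ) • w) v, h.smul_left, h.antisymm w v]
  ring

theorem qf_smul (x : M) (c : ℂ) (v : E) : qf ω x (c • v) = ‖c‖ ^ 2 * qf ω x v := by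
  have h := ω.isPositiveAt x
  unfold qf
  set V : TangentSpace 𝓘(ℂ, E) x := v with hV
  have h0 : (c • v : E) = ((c.re : ℂ) • V + (c.im : ℂ) • J x V : TangentSpace 𝓘(ℂ, E) x) := by
    show c • v = (c.re : ℂ) • v + (c.im : ℂ) • (Complex.I • v)
    rw [smul_smul, ← add_smul, Complex.re_add_im]
  have h1 : (J x (c • v : E) : TangentSpace 𝓘(ℂ, E) x) =
      (c.re : ℂ) • J x V + ((-c.im : ℝ) : ℂ) • V := by
    show Complex.I • (c • v) = (c.re : ℂ) • (Complex.I • v) + ((-c.im : ℝ) : ℂ) • v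
    rw [smul_smul, smul_smul, ← add_smul]
    congr 1
    apply Complex.ext <;> simp
  rw [h1]
  have h2 : ω.form x (c • v : E) ((c.re : ℂ) • J x V + ((-c.im : ℝ) : ℂ) • V) =
      ω.form x ((c.re : ℂ) • V + (c.im : ℂ) • J x V : TangentSpace 𝓘(ℂ, E) x)
        ((c.re : ℂ) • J x V + ((-c.im : ℝ) : ℂ) • V) := by
    rw [← h0]
  rw [h2, h.add_left, form_add_right, form_add_right, h.smul_left, h.smul_left, h.smul_left,
    h.smul_left, form_smul_right, form_smul_right, form_smul_right, form_smul_right]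
  have h3 : ω.form x V V = 0 := by
    have := h.antisymm V V
    linarith
  have h4 : ω.form x (J x V) (J x V) = 0 := by
    have := h.antisymm (J x V) (J x V)
    linarith
  have h5 : ω.form x (J x V) V = - ω.form x V (J x V) := h.antisymm V (J x V)
  rw [h3, h4, h5, ← Complex.normSq_eq_norm_sq, Complex.normSq_apply]
  ring

theorem qf_pos (x : M) {v : E} (hv : v ≠ 0) : 0 < qf ω x v := (ω.isPositiveAt x).pos v hv

theorem qf_nonneg (x : M) (v : E) : 0 ≤ qf ω x v := by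
  by_cases hv : v = 0
  · have := qf_smul ω x 0 v
    rw [zero_smul] at this
    rw [hv, this]
    simp
  · exact (qf_pos ω x hv).le

omit [IsManifold 𝓘(ℂ, E) 1 M] in
theorem discDeriv_smul (φ : ℂ → M) (ξ a b : ℂ) :
    (discDeriv φ ξ (a * b) : TangentSpace 𝓘(ℂ, E) (φ ξ)) = a • discDeriv φ ξ b := by
  unfold discDeriv
  have := (mfderiv 𝓘(ℂ, ℂ) 𝓘(ℂ, E) φ ξ).map_smul a b
  exact this

theorem pullback_eq (φ : ℂ → M) (ξ : ℂ) :
    pullback ω φ ξ = qf ω (φ ξ) (discDeriv (E := E) φ ξ 1) := by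
  unfold pullback qf
  have h : (discDeriv φ ξ Complex.I : TangentSpace 𝓘(ℂ, E) (φ ξ)) =
      J (φ ξ) (discDeriv φ ξ 1) := by
    have := discDeriv_smul (E := E) φ ξ Complex.I 1
    rw [mul_one] at this
    exact this
  rw [h]

theorem pullback_nonneg (φ : ℂ → M) (ξ : ℂ) : 0 ≤ pullback ω φ ξ := by
  rw [pullback_eq]
  exact qf_nonneg ω _ _

end metric

/-- Schwarz lemma for tangent discs: if `ψ` is a tangent disc with `ψ 0 = φ ξ₀` then
`ψ' 0 = κ φ' ξ₀` with `|κ| ≤ 1 - |ξ₀|²`. -/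
theorem schwarz_lift [IsManifold 𝓘(ℂ, E) 1 M] (ω : PosForm E M) {F : Foliation E M} {φ : ℂ → M}
    (hφ : F.IsUniversalCovering φ) {ψ : ℂ → M} (hψ : F.IsTangentDisc ψ) {ξ₀ : ℂ}
    (hξ₀ : ξ₀ ∈ ball (0 : ℂ) 1) (h0 : ψ 0 = φ ξ₀) :
    ∃ κ : ℂ, ‖κ‖ ≤ 1 - ‖ξ₀‖ ^ 2 ∧ pullback ω ψ 0 = ‖κ‖ ^ 2 * pullback ω φ ξ₀ ∧
      ∀ e : OpenPartialHomeomorph M E, IsHolChartAt e (φ ξ₀) →
        HasDerivAt (fun z => e (ψ z)) (κ • deriv (fun z => e (φ z)) ξ₀) 0 := by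
  obtain ⟨f, hfc, hfm, hf0, hlift⟩ := exists_lift hφ hψ hξ₀ h0
  have hfd := lift_differentiable hφ hψ hfc hfm hlift
  have hz0 : (0 : ℂ) ∈ ball (0 : ℂ) 1 := mem_ball_self one_pos
  have hfd0 : DifferentiableAt ℂ f 0 := hfd.differentiableAt (isOpen_ball.mem_nhds hz0)
  have heq : ψ =ᶠ[𝓝 0] φ ∘ f := by
    filter_upwards [isOpen_ball.mem_nhds hz0] with z hz
    exact (hlift z hz).symm
  have hφd : MDifferentiableAt 𝓘(ℂ, ℂ) 𝓘(ℂ, E) φ (f 0) := by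
    rw [hf0]; exact hφ.tangent.mdiffAt hξ₀
  refine ⟨deriv f 0, ?_, ?_, ?_⟩
  · have := schwarz_pick hfd hfm
    rwa [hf0] at this
  · have h1 : mfderiv 𝓘(ℂ, ℂ) 𝓘(ℂ, E) (φ ∘ f) 0 =
        (mfderiv 𝓘(ℂ, ℂ) 𝓘(ℂ, E) φ (f 0)).comp (mfderiv 𝓘(ℂ, ℂ) 𝓘(ℂ, ℂ) f 0) :=
      mfderiv_comp 0 hφd (mdifferentiableAt_iff_differentiableAt.2 hfd0)
    have h2 : mfderiv 𝓘(ℂ, ℂ) 𝓘(ℂ, E) ψ 0 = mfderiv 𝓘(ℂ, ℂ) 𝓘(ℂ, E) (φ ∘ f) 0 :=
      heq.mfderiv_eq
    rw [h1, mfderiv_eq_fderiv] at h2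
    have h3 : (discDeriv (E := E) ψ 0 1 : E) =
        (deriv f 0 • (discDeriv (E := E) φ (f 0) 1 : E) : E) := by
      have h4 := congrArg (fun L : ℂ →L[ℂ] E => L 1) h2
      have h5 : (discDeriv (E := E) ψ 0 1 : E) = discDeriv (E := E) φ (f 0) (deriv f 0) := by
        have h6 : fderiv ℂ f 0 1 = deriv f 0 := fderiv_apply_one_eq_deriv
        rw [← h6]
        exact h4
      rw [h5]
      have h7 := discDeriv_smul (E := E) φ (f 0) (deriv f 0) 1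
      rw [mul_one] at h7
      exact h7
    have h8 : qf ω (ψ 0) (discDeriv (E := E) ψ 0 1 : E) =
        qf ω (ψ 0) (deriv f 0 • (discDeriv (E := E) φ (f 0) 1 : E)) := congrArg _ h3
    have h9 : ∀ (x : M) (η : ℂ), x = φ ξ₀ → η = ξ₀ →
        qf ω x (discDeriv (E := E) φ η 1 : E) =
          qf ω (φ ξ₀) (discDeriv (E := E) φ ξ₀ 1 : E) := by
      rintro x η rfl rfl
      rfl
    rw [pullback_eq, pullback_eq]
    refine h8.trans ((qf_smul ω _ _ _).trans ?_)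
    rw [h9 (ψ 0) (f 0) h0 hf0]
  · intro e he
    have h1 : HasDerivAt (fun z => e (φ z)) (deriv (fun z => e (φ z)) ξ₀) ξ₀ :=
      (hasDerivAt_chart (hφ.tangent.mdiffAt hξ₀) he).differentiableAt.hasDerivAt
    rw [← hf0] at h1
    have h2 := h1.scomp (0 : ℂ) hfd0.hasDerivAt
    rw [hf0] at h2
    refine h2.congr_of_eventuallyEq ?_
    filter_upwards [heq] with z hz
    show e (ψ z) = e (φ (f z))
    rw [hz]
    rfl

end Pool.Agent.Helper684.GX.Nev
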